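import Mathlib
import Pool.Agent.Helper59.RE.ArcCount

/-!
# Block AS: almost sure equidistribution from summable second moments
-/

set_option autoImplicit false

namespace Pool.Agent.Helper46.RB

open Finset MeasureTheory ProbabilityTheory Filter Topology
open Pool.Agent.Helper59.RE (e norm_e e_add e_sub conj_e continuous_e arc_count_w)

/-- the second moment of an exponential sum -/
theorem second_moment {Ω : Type*} [MeasurableSpace Ω] (μ : Measure Ω) [IsProbabilityMeasure μ]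
    (X : Ω → ℝ) (hX : Measurable X) (w c : ℕ → ℝ) (h : ℝ) (G : Finset ℕ) :
    ∫ ω, ‖∑ i ∈ G, e (h * (X ω * w i + c i))‖ ^ 2 ∂μ ≤ ∑ i ∈ G, ∑ l ∈ G, ‖∫ ω, e (h * (w i - w l) * X ω) ∂μ‖ := by
  have hm : ∀ a d : ℝ, Measurable (fun ω => e (a * X ω + d)) := fun a d =>
    continuous_e.measurable.comp ((hX.const_mul a).add measurable_const)
  have hint : ∀ a d : ℝ, Integrable (fun ω => e (a * X ω + d)) μ := fun a d =>
    (integrable_const (1 : ℝ)).mono' (hm a d).aestronglyMeasurable (Eventually.of_forall fun ω => by rw [norm_e])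
  have key : ∀ ω, ((‖∑ i ∈ G, e (h * (X ω * w i + c i))‖ ^ 2 : ℝ) : ℂ) =
      ∑ i ∈ G, ∑ l ∈ G, e (h * (c i - c l)) * e (h * (w i - w l) * X ω + 0) := by
    intro ω
    rw [Complex.ofReal_pow, ← Complex.conj_mul', map_sum, Finset.sum_mul_sum, Finset.sum_comm]
    refine Finset.sum_congr rfl fun i _ => Finset.sum_congr rfl fun l _ => ?_
    rw [mul_comm, ← e_sub, ← e_add]
    congr 1
    ring
  have h1 : ((∫ ω, ‖∑ i ∈ G, e (h * (X ω * w i + c i))‖ ^ 2 ∂μ : ℝ) : ℂ) =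
      ∑ i ∈ G, ∑ l ∈ G, e (h * (c i - c l)) * ∫ ω, e (h * (w i - w l) * X ω + 0) ∂μ := by
    rw [← integral_complex_ofReal]
    simp_rw [key]
    rw [integral_finsetSum _ fun i _ => integrable_finsetSum _ fun l _ => (hint _ _).const_mul _]
    refine Finset.sum_congr rfl fun i _ => ?_
    rw [integral_finsetSum _ fun l _ => (hint _ _).const_mul _]
    refine Finset.sum_congr rfl fun l _ => ?_
    rw [integral_const_mul]
  have h2 : ∫ ω, ‖∑ i ∈ G, e (h * (X ω * w i + c i))‖ ^ 2 ∂μ ≤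
      ‖((∫ ω, ‖∑ i ∈ G, e (h * (X ω * w i + c i))‖ ^ 2 ∂μ : ℝ) : ℂ)‖ := by
    rw [Complex.norm_real]
    exact le_abs_self _
  refine h2.trans ?_
  rw [h1]
  refine (norm_sum_le _ _).trans (Finset.sum_le_sum fun i _ => (norm_sum_le _ _).trans (Finset.sum_le_sum fun l _ => ?_))
  rw [norm_mul, norm_e, one_mul]
  simp

/-- growth of `⌊a ^ j⌋` -/
theorem log_floor_pow {a : ℝ} (ha : 1 < a) : ∃ j₀ : ℕ, ∀ j : ℕ, j₀ ≤ j → Real.log a / 2 * j ≤ Real.log (⌊a ^ j⌋₊ : ℕ) ∧ 1 ≤ ⌊a ^ j⌋₊ := by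
  have hla : 0 < Real.log a := Real.log_pos ha
  obtain ⟨j₀, hj₀⟩ := exists_nat_ge (2 * Real.log 2 / Real.log a)
  refine ⟨j₀, fun j hj => ?_⟩
  have hj' : (j₀ : ℝ) ≤ j := by exact_mod_cast hj
  have h1 : 2 * Real.log 2 ≤ j * Real.log a := by
    rw [div_le_iff₀ hla] at hj₀
    nlinarith
  have h2 : 1 ≤ a ^ j := one_le_pow₀ ha.le
  have h3 : 1 ≤ ⌊a ^ j⌋₊ := (Nat.one_le_floor_iff _).2 h2
  have h3' : (1 : ℝ) ≤ (⌊a ^ j⌋₊ : ℕ) := by exact_mod_cast h3
  refine ⟨?_, h3⟩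
  have h4 : a ^ j / 2 ≤ (⌊a ^ j⌋₊ : ℕ) := by
    have := Nat.lt_floor_add_one (a ^ j)
    linarith
  have h5 := Real.log_le_log (by positivity) h4
  rw [Real.log_div (by positivity) (by norm_num), Real.log_pow] at h5
  linarith

/-- almost surely the exponential sums are small along a geometric sequence -/
theorem as_small {Ω : Type*} [MeasurableSpace Ω] (μ : Measure Ω) [IsProbabilityMeasure μ]
    (X : Ω → ℝ) (hX : Measurable X) (w c : ℕ → ℝ) (h : ℕ) (η : ℝ) (hη : 0 < η)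
    (hw : ∃ (K : ℝ) (J₀ : ℕ), ∀ J : ℕ, J₀ ≤ J →
      ∃ G : Finset ℕ, G ⊆ range J ∧ (1 - η) * J ≤ G.card ∧
        ∑ i ∈ G, ∑ l ∈ G, ‖∫ ω, e (h * (w i - w l) * X ω) ∂μ‖ ≤ K * (J : ℝ) ^ 2 / Real.log J ^ 2)
    (a : ℝ) (ha : 1 < a) :
    ∀ᵐ ω ∂μ, ∀ᶠ j : ℕ in atTop, ‖∑ i ∈ range ⌊a ^ j⌋₊, e (h * (X ω * w i + c i))‖ < 2 * η * (⌊a ^ j⌋₊ : ℕ) := by
  obtain ⟨K, J₀, hJ⟩ := hw
  obtain ⟨j₁, hj₁⟩ := log_floor_pow ha
  have hla : 0 < Real.log a := Real.log_pos ha
  have htend : Tendsto (fun j : ℕ => ⌊a ^ j⌋₊) atTop atTop :=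
    (tendsto_nat_floor_atTop (α := ℝ)).comp (tendsto_pow_atTop_atTop_of_one_lt ha)
  obtain ⟨j₂, hj₂⟩ := (htend.eventually_ge_atTop J₀).exists_forall_of_atTop
  set j₃ := max (max j₁ j₂) 1 with hj₃
  set S : ℕ → Ω → ℝ := fun j ω => ‖∑ i ∈ range ⌊a ^ j⌋₊, e (h * (X ω * w i + c i))‖ with hS
  set A : ℕ → Set Ω := fun j => if j₃ ≤ j then {ω | 2 * η * (⌊a ^ j⌋₊ : ℕ) ≤ S j ω} else ∅ with hA
  set C : ℝ := max K 0 / (η ^ 2 * (Real.log a / 2) ^ 2) with hC
  have hC0 : 0 ≤ C := by positivity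
  have hmeas : ∀ j, μ (A j) ≤ ENNReal.ofReal (C * (1 / (j : ℝ) ^ 2)) := by
    intro j
    rw [hA]
    simp only
    split_ifs with hj
    · have hj1 : j₁ ≤ j := by omega
      have hj2 : j₂ ≤ j := by omega
      have hj0 : 1 ≤ j := by omega
      have hjR : (1 : ℝ) ≤ j := by exact_mod_cast hj0
      obtain ⟨hlog, hone⟩ := hj₁ j hj1
      obtain ⟨G, hG, hcard, hsum⟩ := hJ _ (hj₂ j hj2)
      set J := ⌊a ^ j⌋₊ with hJdef
      have hJR : (1 : ℝ) ≤ J := by exact_mod_cast hone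
      have hlogpos : 0 < Real.log J := lt_of_lt_of_le (by positivity) hlog
      set SG : Ω → ℝ := fun ω => ‖∑ i ∈ G, e (h * (X ω * w i + c i))‖ with hSG
      have hsub : {ω | 2 * η * (J : ℝ) ≤ S j ω} ⊆ {ω | (η * J) ^ 2 ≤ SG ω ^ 2} := by
        intro ω hω
        rw [Set.mem_ofPred_eq] at hω ⊢
        have h1 : S j ω ≤ SG ω + η * J := by
          rw [hS, hSG]
          simp only
          have h2 : ∑ i ∈ range J, e (h * (X ω * w i + c i)) = ∑ i ∈ G, e (h * (X ω * w i + c i)) +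
              ∑ i ∈ range J \ G, e (h * (X ω * w i + c i)) := by
            rw [add_comm]
            exact (Finset.sum_sdiff hG).symm
          rw [h2]
          refine (norm_add_le _ _).trans ?_
          have h3 : ‖∑ i ∈ range J \ G, e (h * (X ω * w i + c i))‖ ≤ ((range J \ G).card : ℝ) := by
            refine (norm_sum_le _ _).trans ?_
            rw [Finset.sum_congr rfl fun i _ => norm_e _, Finset.sum_const, nsmul_eq_mul, mul_one]
          have h4 : ((range J \ G).card : ℝ) ≤ η * J := by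
            have h5 := Finset.card_sdiff_add_card_eq_card hG
            rw [Finset.card_range] at h5
            have h6 : ((range J \ G).card : ℝ) + G.card = J := by exact_mod_cast h5
            linarith
          linarith
        have h7 : η * J ≤ SG ω := by linarith
        exact pow_le_pow_left₀ (by positivity) h7 2
      have hmS : Measurable fun ω => SG ω ^ 2 := by
        have : Measurable fun ω => ∑ i ∈ G, e (h * (X ω * w i + c i)) :=
          Finset.measurable_fun_sum _ fun i _ =>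
            continuous_e.measurable.comp (((hX.mul_const _).add_const _).const_mul _)
        exact (this.norm).pow_const 2
      have hint : Integrable (fun ω => SG ω ^ 2) μ := by
        refine (integrable_const ((G.card : ℝ) ^ 2)).mono' hmS.aestronglyMeasurable (Eventually.of_forall fun ω => ?_)
        rw [Real.norm_eq_abs, abs_of_nonneg (by positivity)]
        apply pow_le_pow_left₀ (norm_nonneg _)
        refine (norm_sum_le _ _).trans ?_
        rw [Finset.sum_congr rfl fun i _ => norm_e _, Finset.sum_const, nsmul_eq_mul, mul_one]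
      have hmk := mul_meas_ge_le_integral_of_nonneg (μ := μ) (f := fun ω => SG ω ^ 2)
        (Eventually.of_forall fun ω => by positivity) hint ((η * J) ^ 2)
      have h8 : ∫ ω, SG ω ^ 2 ∂μ ≤ max K 0 * (J : ℝ) ^ 2 / Real.log J ^ 2 := by
        refine (second_moment μ X hX w c h G).trans (hsum.trans ?_)
        have : K ≤ max K 0 := le_max_left _ _
        gcongr
      have h9 : μ.real {ω | (η * J) ^ 2 ≤ SG ω ^ 2} ≤ C * (1 / (j : ℝ) ^ 2) := by
        have h10 : (η * J) ^ 2 * μ.real {ω | (η * J) ^ 2 ≤ SG ω ^ 2} ≤ max K 0 * (J : ℝ) ^ 2 / Real.log J ^ 2 := hmk.trans h8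
        have h11 : μ.real {ω | (η * J) ^ 2 ≤ SG ω ^ 2} ≤ max K 0 / (η ^ 2 * Real.log J ^ 2) := by
          rw [le_div_iff₀ (by positivity)]
          have h12 : (η * J) ^ 2 * μ.real {ω | (η * J) ^ 2 ≤ SG ω ^ 2} * Real.log J ^ 2 ≤ max K 0 * (J : ℝ) ^ 2 := by
            rwa [le_div_iff₀ (by positivity)] at h10
          have h13 : (J : ℝ) ^ 2 * (μ.real {ω | (η * J) ^ 2 ≤ SG ω ^ 2} * (η ^ 2 * Real.log J ^ 2)) ≤ (J : ℝ) ^ 2 * max K 0 := by
            nlinarith
          exact le_of_mul_le_mul_left h13 (by positivity)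
        refine h11.trans ?_
        rw [hC, div_mul_div_comm, mul_one]
        apply div_le_div_of_nonneg_left (le_max_right _ _) (by positivity)
        have h14 : (Real.log a / 2) ^ 2 * (j : ℝ) ^ 2 ≤ Real.log J ^ 2 := by
          rw [← mul_pow]
          exact pow_le_pow_left₀ (by positivity) hlog 2
        nlinarith [sq_nonneg η]
      calc μ {ω | 2 * η * (J : ℝ) ≤ S j ω} ≤ μ {ω | (η * J) ^ 2 ≤ SG ω ^ 2} := measure_mono hsub
        _ = ENNReal.ofReal (μ.real {ω | (η * J) ^ 2 ≤ SG ω ^ 2}) := by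
            rw [measureReal_def, ENNReal.ofReal_toReal (measure_ne_top _ _)]
        _ ≤ _ := ENNReal.ofReal_le_ofReal h9
    · rw [measure_empty]
      exact bot_le
  have hfin : ∑' j, μ (A j) ≠ ⊤ := by
    have hs : Summable fun j : ℕ => C * (1 / (j : ℝ) ^ 2) :=
      (Real.summable_one_div_nat_pow.mpr (by norm_num)).mul_left C
    have h1 : ∑' j, μ (A j) ≤ ∑' j : ℕ, ENNReal.ofReal (C * (1 / (j : ℝ) ^ 2)) := ENNReal.tsum_le_tsum hmeas
    refine ne_top_of_le_ne_top ?_ h1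
    exact hs.tsum_ofReal_ne_top
  filter_upwards [ae_eventually_notMem hfin] with ω hω
  filter_upwards [hω, eventually_ge_atTop j₃] with j hj hj3
  rw [hA] at hj
  simp only [if_pos hj3, Set.mem_ofPred_eq, not_le] at hj
  exact hj

/-- Block AS. -/
theorem as_equi {Ω : Type*} [MeasurableSpace Ω] (μ : Measure Ω) [IsProbabilityMeasure μ]
    (X : Ω → ℝ) (hX : Measurable X) (w c : ℕ → ℝ)
    (hw : ∀ h : ℕ, 1 ≤ h → ∀ η : ℝ, 0 < η → ∃ (K : ℝ) (J₀ : ℕ), ∀ J : ℕ, J₀ ≤ J →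
      ∃ G : Finset ℕ, G ⊆ range J ∧ (1 - η) * J ≤ G.card ∧
        ∑ i ∈ G, ∑ l ∈ G, ‖∫ ω, e (h * (w i - w l) * X ω) ∂μ‖ ≤ K * (J : ℝ) ^ 2 / Real.log J ^ 2) :
    ∀ᵐ ω ∂μ, ∀ s t : ℝ, 0 ≤ s → s < t → t ≤ 1 →
      Tendsto (fun N : ℕ => (((range N).filter (fun i => s ≤ Int.fract (X ω * w i + c i) ∧
        Int.fract (X ω * w i + c i) < t)).card : ℝ) / N) atTop (𝓝 (t - s)) := by
  classical
  have h1 : ∀ᵐ ω ∂μ, ∀ h : ℕ, ∀ q r : ℕ, 1 ≤ h → ∀ᶠ j : ℕ in atTop,
      ‖∑ i ∈ range ⌊(1 + 1 / ((r : ℝ) + 1)) ^ j⌋₊, e (h * (X ω * w i + c i))‖ <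
        2 * (1 / ((q : ℝ) + 1)) * (⌊(1 + 1 / ((r : ℝ) + 1)) ^ j⌋₊ : ℕ) := by
    rw [ae_all_iff]
    intro h
    rw [ae_all_iff]
    intro q
    rw [ae_all_iff]
    intro r
    by_cases hh : 1 ≤ h
    · have h2 := as_small μ X hX w c h (1 / ((q : ℝ) + 1)) (by positivity) (hw h hh _ (by positivity))
        (1 + 1 / ((r : ℝ) + 1)) (by
          have : (0 : ℝ) < 1 / ((r : ℝ) + 1) := by positivity
          linarith)
      filter_upwards [h2] with ω hω _ using hω
    · filter_upwards with ω hh'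
      exact absurd hh' hh
  filter_upwards [h1] with ω hω
  intro s t hs hst ht
  set u : ℕ → ℝ := fun N => (((range N).filter (fun i => s ≤ Int.fract (X ω * w i + c i) ∧
        Int.fract (X ω * w i + c i) < t)).card : ℝ) with hu
  have hmono : Monotone u := by
    intro N M hNM
    rw [hu]
    simp only
    have : (range N).filter (fun i => s ≤ Int.fract (X ω * w i + c i) ∧ Int.fract (X ω * w i + c i) < t) ⊆
        (range M).filter (fun i => s ≤ Int.fract (X ω * w i + c i) ∧ Int.fract (X ω * w i + c i) < t) :=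
      Finset.filter_subset_filter _ (Finset.range_mono hNM)
    exact_mod_cast Finset.card_le_card this
  apply tendsto_div_of_monotone_of_tendsto_div_floor_pow u (t - s) hmono (fun r => 1 + 1 / ((r : ℝ) + 1))
  · intro r
    have : (0 : ℝ) < 1 / ((r : ℝ) + 1) := by positivity
    linarith
  · have := tendsto_one_div_add_atTop_nhds_zero_nat (𝕜 := ℝ)
    simpa using this.const_add (1 : ℝ)
  · intro r
    set a : ℝ := 1 + 1 / ((r : ℝ) + 1) with ha
    have ha1 : 1 < a := by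
      have : (0 : ℝ) < 1 / ((r : ℝ) + 1) := by positivity
      linarith
    obtain ⟨j₁, hj₁⟩ := log_floor_pow ha1
    rw [Metric.tendsto_atTop]
    intro ε hε
    -- choose `H` with `4 / √H < ε / 2`
    obtain ⟨H, hH⟩ := exists_nat_gt ((8 / ε) ^ 2)
    have hH0 : 1 ≤ H := by
      rcases Nat.eq_zero_or_pos H with h0 | h0
      · rw [h0] at hH
        have : (0 : ℝ) ≤ (8 / ε) ^ 2 := by positivity
        norm_num at hH
        linarith
      · exact h0
    have hHR : (1 : ℝ) ≤ H := by exact_mod_cast hH0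
    have hsq : 8 / ε < Real.sqrt H := by
      apply Real.lt_sqrt_of_sq_lt
      exact hH
    have h4H : 4 / Real.sqrt H < ε / 2 := by
      rw [div_lt_iff₀ (by positivity)]
      rw [div_lt_iff₀ hε] at hsq
      linarith
    -- choose `q`
    obtain ⟨q, hq⟩ := exists_nat_gt (16 * H / ε)
    have hq1 : (16 * (H : ℝ) / ε) < q + 1 := by linarith
    have hqe : 8 * H * (1 / ((q : ℝ) + 1)) < ε / 2 := by
      rw [mul_one_div, div_lt_iff₀ (by positivity)]
      rw [div_lt_iff₀ hε] at hq1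
      linarith
    have hev : ∀ᶠ j : ℕ in atTop, ∀ h ∈ Icc 1 H, ‖∑ i ∈ range ⌊a ^ j⌋₊, e (h * (X ω * w i + c i))‖ <
        2 * (1 / ((q : ℝ) + 1)) * (⌊a ^ j⌋₊ : ℕ) := by
      rw [Filter.eventually_all_finset]
      intro h hh
      exact hω h q r (Finset.mem_Icc.1 hh).1
    obtain ⟨j₂, hj₂⟩ := hev.exists_forall_of_atTop
    refine ⟨max j₁ j₂, fun j hj => ?_⟩
    obtain ⟨-, hone⟩ := hj₁ j (le_of_max_le_left hj)
    have hs2 := hj₂ j (le_of_max_le_right hj)
    set J := ⌊a ^ j⌋₊ with hJdef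
    have hJR : (1 : ℝ) ≤ J := by exact_mod_cast hone
    have hac := arc_count_w (range J) (fun i => X ω * w i + c i) H hH0 s t hs hst ht
    rw [Finset.card_range] at hac
    rw [Real.dist_eq]
    have h5 : u J / J - (t - s) = (u J - (t - s) * J) / J := by
      field_simp
    rw [h5, abs_div, Nat.abs_cast, div_lt_iff₀ (by positivity)]
    refine lt_of_le_of_lt hac ?_
    have h6 : ∑ h ∈ Icc 1 H, 1 / (h : ℝ) * ‖∑ i ∈ range J, e (h * (X ω * w i + c i))‖ ≤ H * (2 * (1 / ((q : ℝ) + 1)) * J) := by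
      have h7 : ∀ h ∈ Icc 1 H, 1 / (h : ℝ) * ‖∑ i ∈ range J, e (h * (X ω * w i + c i))‖ ≤ 2 * (1 / ((q : ℝ) + 1)) * J := by
        intro h hh
        have hh1 : (1 : ℝ) ≤ h := by exact_mod_cast (Finset.mem_Icc.1 hh).1
        have h8 : 1 / (h : ℝ) ≤ 1 := by
          rw [div_le_one (by linarith)]
          exact hh1
        calc 1 / (h : ℝ) * ‖∑ i ∈ range J, e (h * (X ω * w i + c i))‖ ≤ 1 * (2 * (1 / ((q : ℝ) + 1)) * J) := by
              apply mul_le_mul h8 (hs2 h hh).le (norm_nonneg _) (by norm_num)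
          _ = _ := one_mul _
      refine (Finset.sum_le_sum h7).trans ?_
      rw [Finset.sum_const, nsmul_eq_mul, Nat.card_Icc]
      simp
    calc 4 * ((J : ℝ) / Real.sqrt H + ∑ h ∈ Icc 1 H, 1 / (h : ℝ) * ‖∑ i ∈ range J, e (h * (X ω * w i + c i))‖)
        ≤ 4 * ((J : ℝ) / Real.sqrt H + H * (2 * (1 / ((q : ℝ) + 1)) * J)) := by gcongr
      _ = (4 / Real.sqrt H + 8 * H * (1 / ((q : ℝ) + 1))) * J := by ring
      _ < ε * J := by
          apply mul_lt_mul_of_pos_right _ (by positivity)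
          linarith

end Pool.Agent.Helper46.RB
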