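import Mathlib

/-!
# Exactness of small linear forms in logarithms of integers (elementary)
-/

set_option autoImplicit false

namespace Pool.Agent.Helper46.RB

open Real

/-- two different positive integers have logarithms at distance at least `1 / (2 min)` -/
theorem log_sep {U V : ℕ} (hU : 0 < U) (hV : 0 < V) (h : U ≠ V) {X : ℝ} (hX : (U : ℝ) ≤ X ∨ (V : ℝ) ≤ X)
    (hX0 : 0 < X) : 1 / (2 * X) ≤ |Real.log U - Real.log V| := by
  have key : ∀ {a c : ℕ}, 0 < a → a < c → ∀ {Z : ℝ}, ((a : ℝ) ≤ Z ∨ (c : ℝ) ≤ Z) →
      1 / (2 * Z) ≤ Real.log c - Real.log a := by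
    intro a c ha hac Z hZ
    have ha' : (1 : ℝ) ≤ a := by exact_mod_cast ha
    have hac' : (a : ℝ) + 1 ≤ c := by exact_mod_cast hac
    have hZa : (a : ℝ) ≤ Z := by
      rcases hZ with h1 | h1
      · exact h1
      · linarith
    have hc0 : (0 : ℝ) < c := by linarith
    have ha0 : (0 : ℝ) < a := by linarith
    have h1 := Real.one_sub_inv_le_log_of_pos (x := (c : ℝ) / a) (by positivity)
    rw [Real.log_div hc0.ne' ha0.ne', inv_div] at h1
    refine le_trans ?_ h1
    have h2 : (a : ℝ) / c ≤ a / (a + 1) := by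
      apply div_le_div_of_nonneg_left ha0.le (by linarith) hac'
    have h3 : (1 : ℝ) - a / (a + 1) = 1 / (a + 1) := by
      field_simp
      ring
    have h4 : 1 / (2 * Z) ≤ 1 / ((a : ℝ) + 1) := by
      apply one_div_le_one_div_of_le (by linarith)
      linarith
    linarith
  rcases lt_or_gt_of_ne h with h1 | h1
  · have := key hU h1 hX
    rw [abs_sub_comm]
    exact this.trans (le_abs_self _)
  · have := key hV h1 hX.symm
    exact this.trans (le_abs_self _)

/-- the exactness lemma: `b ^ j * X = Y` as soon as the logarithms almost agree -/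
theorem exact_of_small {b : ℕ} (hb : 1 ≤ b) {X Y : ℕ} (hX : 0 < X) (hY : 0 < Y) (j : ℤ) {Z : ℝ}
    (hXZ : (X : ℝ) ≤ Z) (hYZ : (Y : ℝ) ≤ Z)
    (h : |j * Real.log b + Real.log X - Real.log Y| < 1 / (2 * Z)) : (b : ℚ) ^ j * X = Y := by
  have hZ0 : 0 < Z := lt_of_lt_of_le (by exact_mod_cast hX) hXZ
  have hb0 : (0 : ℝ) < b := by exact_mod_cast hb
  have hbQ : (b : ℚ) ≠ 0 := by
    have : b ≠ 0 := by omega
    exact_mod_cast this
  rcases le_or_gt 0 j with hj | hj
  · obtain ⟨i, rfl⟩ := Int.eq_ofNat_of_zero_le hj
    have hU : 0 < b ^ i * X := by positivity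
    by_contra hne
    have hne' : b ^ i * X ≠ Y := by
      intro h1
      apply hne
      have : ((b ^ i * X : ℕ) : ℚ) = (Y : ℚ) := by exact_mod_cast h1
      rw [zpow_natCast]
      push_cast at this
      exact this
    have h2 := log_sep hU hY hne' (X := Z) (Or.inr hYZ) hZ0
    rw [Nat.cast_mul, Nat.cast_pow, Real.log_mul (by positivity) (by positivity), Real.log_pow] at h2
    push_cast at h
    linarith
  · obtain ⟨i, hi⟩ := Int.eq_ofNat_of_zero_le (a := -j) (by omega)
    have hji : j = -(i : ℤ) := by omega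
    have hU : 0 < b ^ i * Y := by positivity
    by_contra hne
    have hne' : X ≠ b ^ i * Y := by
      intro h1
      apply hne
      have h3 : (X : ℚ) = (b : ℚ) ^ i * Y := by exact_mod_cast h1
      rw [hji, zpow_neg, zpow_natCast, h3]
      field_simp
    have h2 := log_sep hX hU hne' (X := Z) (Or.inl hXZ) hZ0
    rw [Nat.cast_mul, Nat.cast_pow, Real.log_mul (by positivity) (by positivity), Real.log_pow] at h2
    rw [hji] at h
    push_cast at h
    have h4 : |Real.log X - (i * Real.log b + Real.log Y)| = |-(i : ℝ) * Real.log b + Real.log X - Real.log Y| := by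
      congr 1
      ring
    rw [h4] at h2
    linarith

/-- valuation form of an exact relation -/
theorem val_of_exact {b : ℕ} (hb : b ≠ 0) {X Y : ℕ} (hX : X ≠ 0) (hY : Y ≠ 0) {j : ℤ}
    (h : (b : ℚ) ^ j * X = Y) (p : ℕ) [hp : Fact p.Prime] :
    j * (padicValNat p b : ℤ) + padicValNat p X = padicValNat p Y := by
  have hbQ : (b : ℚ) ≠ 0 := by exact_mod_cast hb
  have hXQ : (X : ℚ) ≠ 0 := by exact_mod_cast hX
  have h1 := congrArg (padicValRat p) h
  rw [padicValRat.mul (zpow_ne_zero _ hbQ) hXQ, padicValRat.zpow, padicValRat.of_nat, padicValRat.of_nat,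
    padicValRat.of_nat] at h1
  exact h1

theorem padicValNat_le_log {p a A : ℕ} [hp : Fact p.Prime] (ha : a ≠ 0) (haA : a ≤ A) :
    padicValNat p a ≤ Nat.log 2 A := by
  have h1 : p ^ padicValNat p a ∣ a := pow_padicValNat_dvd
  have h2 : p ^ padicValNat p a ≤ A := (Nat.le_of_dvd (Nat.pos_of_ne_zero ha) h1).trans haA
  have h3 : 2 ^ padicValNat p a ≤ A := (Nat.pow_le_pow_left hp.out.two_le _).trans h2
  exact Nat.le_log_of_pow_le (by norm_num) h3

/-- counting in blocks -/
theorem count_le (S : Finset ℕ) (N w B : ℕ) (hw : 1 ≤ w) (hS : ∀ n ∈ S, n ≤ N)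
    (h : ∀ n ∈ S, ∀ n' ∈ S, n < n' → n' - n < w → n' - n ≤ B) : S.card ≤ (N / w + 1) * (B + 1) := by
  classical
  have h1 : S.card ≤ (B + 1) * (Finset.range (N / w + 1)).card := by
    apply Finset.card_le_mul_card_image_of_maps_to (f := fun n => n / w)
    · intro n hn
      rw [Finset.mem_range]
      exact Nat.lt_succ_of_le (Nat.div_le_div_right (hS n hn))
    · intro c _
      rcases (S.filter (fun n => n / w = c)).eq_empty_or_nonempty with h0 | h0
      · rw [h0]
        simp
      · obtain ⟨m, hm, hmin⟩ := Finset.exists_min_image _ (fun n => n) h0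
        have hsub : S.filter (fun n => n / w = c) ⊆ Finset.Icc m (m + B) := by
          intro n hn
          rw [Finset.mem_filter] at hn hm
          rw [Finset.mem_Icc]
          have hmn : m ≤ n := hmin n (Finset.mem_filter.2 hn)
          refine ⟨hmn, ?_⟩
          rcases eq_or_lt_of_le hmn with h2 | h2
          · omega
          · have h3 : n - m < w := by
              have e1 := Nat.div_add_mod n w
              have e2 := Nat.div_add_mod m w
              have e3 := Nat.mod_lt n hw
              rw [hn.2] at e1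
              rw [hm.2] at e2
              omega
            have := h m hm.1 n hn.1 h2 h3
            omega
        calc (S.filter (fun n => n / w = c)).card ≤ (Finset.Icc m (m + B)).card := Finset.card_le_card hsub
          _ = B + 1 := by
            rw [Nat.card_Icc]
            omega
  rw [Finset.card_range] at h1
  rw [mul_comm]
  exact h1

end Pool.Agent.Helper46.RB
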