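import Pool.Agent.Helper46.RB.Exact

/-!
# Pairs in the set of times with a long run of constant digits
-/

set_option autoImplicit false

namespace Pool.Agent.Helper46.RB

open Real

/-- times `n` at which `exp c * β ^ n` is very close to `b ^ k * a` with `a ≤ A` -/
def Zs (b : ℕ) (β c : ℝ) (A : ℕ) (ε : ℝ) : Set ℕ :=
  {n | ∃ (k : ℤ) (a : ℕ), 1 ≤ a ∧ a ≤ A ∧ |c + n * Real.log β - k * Real.log b - Real.log a| ≤ ε}

theorem pair {b : ℕ} {β c : ℝ} {A : ℕ} {ε : ℝ} {n n' : ℕ} (hn : n ∈ Zs b β c A ε) (hn' : n' ∈ Zs b β c A ε) :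
    ∃ (κ : ℤ) (a a' : ℕ), 1 ≤ a ∧ a ≤ A ∧ 1 ≤ a' ∧ a' ≤ A ∧
      |((n' : ℝ) - n) * Real.log β - (κ * Real.log b + Real.log a' - Real.log a)| ≤ 2 * ε := by
  obtain ⟨k, a, ha1, haA, h⟩ := hn
  obtain ⟨k', a', ha1', haA', h'⟩ := hn'
  refine ⟨k' - k, a, a', ha1, haA, ha1', haA', ?_⟩
  have h3 : ((n' : ℝ) - n) * Real.log β - (((k' - k : ℤ) : ℝ) * Real.log b + Real.log a' - Real.log a) =
      (c + n' * Real.log β - k' * Real.log b - Real.log a') - (c + n * Real.log β - k * Real.log b - Real.log a) := by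
    push_cast
    ring
  rw [h3]
  calc _ ≤ |c + n' * Real.log β - k' * Real.log b - Real.log a'| + |c + n * Real.log β - k * Real.log b - Real.log a| :=
        by simpa [Real.norm_eq_abs] using norm_sub_le (c + n' * Real.log β - k' * Real.log b - Real.log a') (c + n * Real.log β - k * Real.log b - Real.log a)
    _ ≤ 2 * ε := by linarith

theorem num_den_le {r : ℚ} (hr : 0 < r) {D X Y : ℕ} (hX : 0 < X) (hY : 0 < Y) (h : r ^ D = (X : ℚ) / Y) :
    r.num.natAbs ^ D ≤ X ∧ r.den ^ D ≤ Y := by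
  have h1 : Rat.divInt (X : ℤ) (Y : ℤ) = r ^ D := by
    rw [h, Rat.divInt_eq_div]
    push_cast
    rfl
  have hnum : (r ^ D).num = r.num ^ D := Rat.num_pow r D
  have hden : (r ^ D).den = r.den ^ D := Rat.den_pow r D
  constructor
  · have h2 := Rat.num_dvd (X : ℤ) (b := (Y : ℤ)) (by exact_mod_cast hY.ne')
    rw [h1, hnum] at h2
    have h3 : r.num.natAbs ^ D ∣ X := by
      have := Int.natAbs_dvd_natAbs.2 h2
      rwa [Int.natAbs_pow, Int.natAbs_natCast] at this
    exact Nat.le_of_dvd hX h3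
  · have h2 := Rat.den_dvd (X : ℤ) (Y : ℤ)
    rw [h1, hden] at h2
    have h3 : r.den ^ D ∣ Y := by exact_mod_cast h2
    exact Nat.le_of_dvd hY h3

/-- the size condition that makes a relation exact -/
theorem small_of_log {ε E Z K : ℝ} (hε : ε ≤ Real.exp (-E)) (hZ : 0 < Z) (hK : 0 < K)
    (h : Real.log (4 * K) + Real.log Z < E) : 2 * ε * K < 1 / (2 * Z) := by
  have h1 : 4 * K * Z < Real.exp E := by
    rw [← Real.log_mul (by positivity) (by positivity)] at h
    exact (Real.log_lt_iff_lt_exp (by positivity)).1 h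
  have h2 : Real.exp (-E) * (4 * K * Z) < 1 := by
    rw [Real.exp_neg, inv_mul_lt_iff₀ (Real.exp_pos _), mul_one]
    exact h1
  rw [lt_div_iff₀ (by positivity)]
  calc 2 * ε * K * (2 * Z) = ε * (4 * K * Z) := by ring
    _ ≤ Real.exp (-E) * (4 * K * Z) := by
        apply mul_le_mul_of_nonneg_right hε
        positivity
    _ < 1 := h2

end Pool.Agent.Helper46.RB
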