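import Pool.Agent.Helper46.RB.Pair

/-!
# The two bounds for the distance of two elements in the independent case, and the dependent case
-/

set_option autoImplicit false

namespace Pool.Agent.Helper46.RB

open Real

variable {b : ℕ} {x ε E : ℝ} {A : ℕ}

theorem rep_min (b : ℕ) (ℓ : ℝ) (h : ∃ (κ : ℤ) (u v : ℕ), 1 ≤ u ∧ 1 ≤ v ∧ ℓ = κ * Real.log b + Real.log u - Real.log v) :
    ∃ (κ : ℤ) (u v : ℕ), 1 ≤ u ∧ 1 ≤ v ∧ ℓ = κ * Real.log b + Real.log u - Real.log v ∧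
      ∀ (κ' : ℤ) (u' v' : ℕ), 1 ≤ u' → 1 ≤ v' → ℓ = κ' * Real.log b + Real.log u' - Real.log v' → u * v ≤ u' * v' := by
  classical
  have hex : ∃ w : ℕ, ∃ (κ : ℤ) (u v : ℕ), 1 ≤ u ∧ 1 ≤ v ∧ ℓ = κ * Real.log b + Real.log u - Real.log v ∧ u * v = w := by
    obtain ⟨κ, u, v, h1, h2, h3⟩ := h
    exact ⟨u * v, κ, u, v, h1, h2, h3, rfl⟩
  obtain ⟨κ, u, v, h1, h2, h3, h4⟩ := Nat.find_spec hex
  refine ⟨κ, u, v, h1, h2, h3, fun κ' u' v' h1' h2' h3' => ?_⟩
  rw [h4]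
  exact Nat.find_min' hex ⟨κ', u', v', h1', h2', h3', rfl⟩

/-- exactness for a pair at distance `D` against the reference pair at distance `D₁` -/
theorem pair_exact (hb : 1 ≤ b) (hA : 1 ≤ A) (hε : ε ≤ Real.exp (-E)) {D D₁ : ℕ} (hD₁ : 1 ≤ D₁) {κ κ₂ : ℤ} {u v a a' : ℕ}
    (hu : 1 ≤ u) (hv : 1 ≤ v) (ha : 1 ≤ a) (ha' : 1 ≤ a') (haA : a ≤ A) (haA' : a' ≤ A)
    (h1 : |(D₁ : ℝ) * x - (κ * Real.log b + Real.log u - Real.log v)| ≤ 2 * ε)
    (h2 : |(D : ℝ) * x - (κ₂ * Real.log b + Real.log a' - Real.log a)| ≤ 2 * ε)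
    (hE : Real.log (4 * ((D : ℝ) + D₁)) + D₁ * Real.log A + D * Real.log (u * v) < E) :
    (b : ℚ) ^ (D₁ * κ₂ - D * κ) * ((a' ^ D₁ * v ^ D : ℕ) : ℚ) = ((a ^ D₁ * u ^ D : ℕ) : ℚ) := by
  have hA0 : (0 : ℝ) < A := by exact_mod_cast hA
  have hu0 : (0 : ℝ) < u := by exact_mod_cast hu
  have hv0 : (0 : ℝ) < v := by exact_mod_cast hv
  have ha0 : (0 : ℝ) < a := by exact_mod_cast ha
  have ha0' : (0 : ℝ) < a' := by exact_mod_cast ha'
  have hD₁0 : (0 : ℝ) < D₁ := by exact_mod_cast hD₁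
  have hu1 : (1 : ℝ) ≤ u := by exact_mod_cast hu
  have hv1 : (1 : ℝ) ≤ v := by exact_mod_cast hv
  set Z : ℝ := (A : ℝ) ^ D₁ * ((u : ℝ) * v) ^ D with hZ
  have hZ0 : 0 < Z := by positivity
  apply exact_of_small hb (Z := Z)
  · positivity
  · positivity
  · push_cast
    rw [hZ, mul_pow]
    have e1 : (a' : ℝ) ^ D₁ ≤ (A : ℝ) ^ D₁ := by
      apply pow_le_pow_left₀ ha0'.le
      exact_mod_cast haA'
    have e2 : (1 : ℝ) ≤ (u : ℝ) ^ D := one_le_pow₀ hu1
    have e3 : (0 : ℝ) < (v : ℝ) ^ D := by positivity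
    calc (a' : ℝ) ^ D₁ * v ^ D ≤ (A : ℝ) ^ D₁ * v ^ D := by gcongr
      _ = (A : ℝ) ^ D₁ * (1 * v ^ D) := by ring
      _ ≤ (A : ℝ) ^ D₁ * (u ^ D * v ^ D) := by gcongr
  · push_cast
    rw [hZ, mul_pow]
    have e1 : (a : ℝ) ^ D₁ ≤ (A : ℝ) ^ D₁ := by
      apply pow_le_pow_left₀ ha0.le
      exact_mod_cast haA
    have e2 : (1 : ℝ) ≤ (v : ℝ) ^ D := one_le_pow₀ hv1
    calc (a : ℝ) ^ D₁ * u ^ D ≤ (A : ℝ) ^ D₁ * u ^ D := by gcongr
      _ = (A : ℝ) ^ D₁ * (u ^ D * 1) := by ring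
      _ ≤ (A : ℝ) ^ D₁ * (u ^ D * v ^ D) := by gcongr
  · have h3 : ((D₁ * κ₂ - D * κ : ℤ) : ℝ) * Real.log b + Real.log ((a' ^ D₁ * v ^ D : ℕ) : ℝ) -
        Real.log ((a ^ D₁ * u ^ D : ℕ) : ℝ) =
        D * ((D₁ : ℝ) * x - (κ * Real.log b + Real.log u - Real.log v)) -
        D₁ * ((D : ℝ) * x - (κ₂ * Real.log b + Real.log a' - Real.log a)) := by
      push_cast
      rw [Real.log_mul (by positivity) (by positivity), Real.log_mul (by positivity) (by positivity),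
        Real.log_pow, Real.log_pow, Real.log_pow, Real.log_pow]
      ring
    rw [h3]
    have h4 : Real.log Z = D₁ * Real.log A + D * Real.log (u * v) := by
      rw [hZ, Real.log_mul (by positivity) (by positivity), Real.log_pow, Real.log_pow]
    have h5 : 2 * ε * ((D : ℝ) + D₁) < 1 / (2 * Z) := by
      apply small_of_log hε hZ0 (by positivity)
      rw [h4]
      linarith
    refine lt_of_le_of_lt ?_ h5
    have h6 := norm_sub_le ((D : ℝ) * ((D₁ : ℝ) * x - (κ * Real.log b + Real.log u - Real.log v)))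
      (D₁ * ((D : ℝ) * x - (κ₂ * Real.log b + Real.log a' - Real.log a)))
    rw [Real.norm_eq_abs, Real.norm_eq_abs, Real.norm_eq_abs, abs_mul, abs_mul, Nat.abs_cast, Nat.abs_cast] at h6
    refine h6.trans ?_
    have h7 : (D : ℝ) * |(D₁ : ℝ) * x - (κ * Real.log b + Real.log u - Real.log v)| ≤ D * (2 * ε) := by gcongr
    have h8 : (D₁ : ℝ) * |(D : ℝ) * x - (κ₂ * Real.log b + Real.log a' - Real.log a)| ≤ D₁ * (2 * ε) := by gcongr
    linarith

/-- first bound: valuations -/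
theorem val_bound (hb : 2 ≤ b) {D D₁ : ℕ} {κ κ₂ : ℤ} {u v a a' : ℕ}
    (hu : 1 ≤ u) (hv : 1 ≤ v) (ha : 1 ≤ a) (ha' : 1 ≤ a') (haA : a ≤ A) (haA' : a' ≤ A)
    (h : (b : ℚ) ^ (D₁ * κ₂ - D * κ) * ((a' ^ D₁ * v ^ D : ℕ) : ℚ) = ((a ^ D₁ * u ^ D : ℕ) : ℚ))
    (p q : ℕ) [hp : Fact p.Prime] [hq : Fact q.Prime]
    (hind : (padicValNat q b : ℤ) * (padicValNat p u - padicValNat p v) ≠
      (padicValNat p b : ℤ) * (padicValNat q u - padicValNat q v)) :
    D ≤ 2 * D₁ * (Nat.log 2 b * Nat.log 2 A) := by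
  have hb0 : b ≠ 0 := by omega
  have hpow : ∀ (r : ℕ) [Fact r.Prime] (c d : ℕ), 1 ≤ c → 1 ≤ d →
      (padicValNat r (c ^ D₁ * d ^ D) : ℤ) = D₁ * padicValNat r c + D * padicValNat r d := by
    intro r _ c d hc hd
    rw [padicValNat.mul (by positivity) (by positivity), padicValNat.pow, padicValNat.pow]
    push_cast
    ring
  have e1 := val_of_exact hb0 (by positivity) (by positivity) h p
  have e2 := val_of_exact hb0 (by positivity) (by positivity) h q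
  rw [hpow p a' v ha' hv, hpow p a u ha hu] at e1
  rw [hpow q a' v ha' hv, hpow q a u ha hu] at e2
  set P := padicValNat p b with hP
  set m := padicValNat q b with hm
  have key : (D : ℤ) * ((m : ℤ) * (padicValNat p u - padicValNat p v) - (P : ℤ) * (padicValNat q u - padicValNat q v)) =
      D₁ * ((m : ℤ) * (padicValNat p a' - padicValNat p a) - (P : ℤ) * (padicValNat q a' - padicValNat q a)) := by
    linear_combination -(m : ℤ) * e1 + (P : ℤ) * e2
  have h1 : (1 : ℤ) ≤ |(m : ℤ) * (padicValNat p u - padicValNat p v) - (P : ℤ) * (padicValNat q u - padicValNat q v)| :=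
    Int.one_le_abs (sub_ne_zero.2 hind)
  have hPb : P ≤ Nat.log 2 b := padicValNat_le_log hb0 le_rfl
  have hmb : m ≤ Nat.log 2 b := padicValNat_le_log hb0 le_rfl
  have hv1 : ∀ (r : ℕ) [Fact r.Prime] (c d : ℕ), 1 ≤ c → 1 ≤ d → c ≤ A → d ≤ A →
      |(padicValNat r c : ℤ) - padicValNat r d| ≤ Nat.log 2 A := by
    intro r _ c d hc hd hcA hdA
    have l1 : padicValNat r c ≤ Nat.log 2 A := padicValNat_le_log (by omega) hcA
    have l2 : padicValNat r d ≤ Nat.log 2 A := padicValNat_le_log (by omega) hdA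
    rw [abs_le]
    constructor <;> omega
  have h2 : |(m : ℤ) * (padicValNat p a' - padicValNat p a) - (P : ℤ) * (padicValNat q a' - padicValNat q a)| ≤
      2 * (Nat.log 2 b * Nat.log 2 A) := by
    have t1 := hv1 p a' a ha' ha haA' haA
    have t2 := hv1 q a' a ha' ha haA' haA
    calc _ ≤ |(m : ℤ) * (padicValNat p a' - padicValNat p a)| + |(P : ℤ) * (padicValNat q a' - padicValNat q a)| :=
          abs_sub _ _
      _ ≤ (Nat.log 2 b : ℤ) * Nat.log 2 A + (Nat.log 2 b : ℤ) * Nat.log 2 A := by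
          rw [abs_mul, abs_mul, Nat.abs_cast, Nat.abs_cast]
          have hPb' : (P : ℤ) ≤ Nat.log 2 b := by exact_mod_cast hPb
          have hmb' : (m : ℤ) ≤ Nat.log 2 b := by exact_mod_cast hmb
          apply add_le_add
          · exact mul_le_mul hmb' t1 (abs_nonneg _) (by positivity)
          · exact mul_le_mul hPb' t2 (abs_nonneg _) (by positivity)
      _ = _ := by ring
  have h3 : (D : ℤ) ≤ D₁ * (2 * (Nat.log 2 b * Nat.log 2 A)) := by
    calc (D : ℤ) = D * 1 := by ring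
      _ ≤ D * |(m : ℤ) * (padicValNat p u - padicValNat p v) - (P : ℤ) * (padicValNat q u - padicValNat q v)| := by gcongr
      _ = |(D : ℤ) * ((m : ℤ) * (padicValNat p u - padicValNat p v) - (P : ℤ) * (padicValNat q u - padicValNat q v))| := by
          rw [abs_mul, Nat.abs_cast]
      _ = D₁ * |(m : ℤ) * (padicValNat p a' - padicValNat p a) - (P : ℤ) * (padicValNat q a' - padicValNat q a)| := by
          rw [key, abs_mul, Nat.abs_cast]
      _ ≤ _ := by gcongr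
  have h4 : ((D₁ * (2 * (Nat.log 2 b * Nat.log 2 A)) : ℕ) : ℤ) = D₁ * (2 * (Nat.log 2 b * Nat.log 2 A)) := by push_cast; ring
  rw [← h4] at h3
  have h5 : D ≤ D₁ * (2 * (Nat.log 2 b * Nat.log 2 A)) := by exact_mod_cast h3
  linarith

end Pool.Agent.Helper46.RB
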