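import Pool.Agent.Helper46.RB.Red

/-!
# Second bound (heights) and the dependent case
-/

set_option autoImplicit false

namespace Pool.Agent.Helper46.RB

open Real

variable {b : ℕ} {x ε E : ℝ} {A : ℕ}

theorem red_bound (hb : 2 ≤ b) {D D₁ : ℕ} (hD : 1 ≤ D) {κ κ₂ : ℤ} {u v a a' : ℕ}
    (hu : 1 ≤ u) (hv : 1 ≤ v) (ha : 1 ≤ a) (ha' : 1 ≤ a') (haA : a ≤ A) (haA' : a' ≤ A)
    (h : (b : ℚ) ^ (D₁ * κ₂ - D * κ) * ((a' ^ D₁ * v ^ D : ℕ) : ℚ) = ((a ^ D₁ * u ^ D : ℕ) : ℚ))
    (hmin : ∀ (κ' : ℤ) (u' v' : ℕ), 1 ≤ u' → 1 ≤ v' →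
      κ * Real.log b + Real.log u - Real.log v = κ' * Real.log b + Real.log u' - Real.log v' → u * v ≤ u' * v') :
    D * Real.log (u * v) ≤ D / 2 * Real.log b + 2 * D₁ * Real.log A := by
  have hb0 : (b : ℚ) ≠ 0 := by
    have : b ≠ 0 := by omega
    exact_mod_cast this
  have hbR : (0 : ℝ) < b := by
    have : 0 < b := by omega
    exact_mod_cast this
  have hb1R : (1 : ℝ) ≤ b := by
    have : 1 ≤ b := by omega
    exact_mod_cast this
  have hD0 : (0 : ℝ) < D := by exact_mod_cast hD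
  set κ₀ : ℤ := round (((κ₂ * D₁ : ℤ) : ℝ) / D) with hκ₀
  set i : ℤ := κ₂ * D₁ - κ₀ * D with hi
  have hi2 : |(i : ℝ)| ≤ D / 2 := by
    have h1 := abs_sub_round (((κ₂ * D₁ : ℤ) : ℝ) / D)
    rw [← hκ₀] at h1
    have h2 : (i : ℝ) = D * (((κ₂ * D₁ : ℤ) : ℝ) / D - κ₀) := by
      rw [hi]
      push_cast
      field_simp
    rw [h2, abs_mul, Nat.abs_cast]
    calc (D : ℝ) * |((κ₂ * D₁ : ℤ) : ℝ) / D - κ₀| ≤ D * (1 / 2) := by gcongr
      _ = D / 2 := by ring
  set ip : ℕ := i.toNat with hip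
  set im : ℕ := (-i).toNat with him
  have hipm : i = (ip : ℤ) - im := by omega
  have habs : ((ip + im : ℕ) : ℝ) = |(i : ℝ)| := by
    have h1 : ((ip + im : ℕ) : ℤ) = |i| := by
      rcases le_total 0 i with h0 | h0
      · rw [abs_of_nonneg h0]; omega
      · rw [abs_of_nonpos h0]; omega
    have h2 : (((ip + im : ℕ) : ℤ) : ℝ) = ((|i| : ℤ) : ℝ) := by rw [h1]
    rw [Int.cast_natCast, Int.cast_abs] at h2
    exact h2
  have huQ : (u : ℚ) ≠ 0 := by
    have : u ≠ 0 := by omega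
    exact_mod_cast this
  have hvQ : (v : ℚ) ≠ 0 := by
    have : v ≠ 0 := by omega
    exact_mod_cast this
  have haQ : (a : ℚ) ≠ 0 := by
    have : a ≠ 0 := by omega
    exact_mod_cast this
  have haQ' : (a' : ℚ) ≠ 0 := by
    have : a' ≠ 0 := by omega
    exact_mod_cast this
  set r : ℚ := (b : ℚ) ^ (κ - κ₀) * ((u : ℚ) / v) with hr
  have hr0 : 0 < r := by
    have h1 : (0 : ℚ) < b := by
      have : 0 < b := by omega
      exact_mod_cast this
    have h2 : (0 : ℚ) < u := by exact_mod_cast hu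
    have h3 : (0 : ℚ) < v := by exact_mod_cast hv
    rw [hr]
    positivity
  have hrD : r ^ D = ((b ^ ip * a' ^ D₁ : ℕ) : ℚ) / ((b ^ im * a ^ D₁ : ℕ) : ℚ) := by
    rw [eq_div_iff (by positivity)]
    push_cast
    push_cast at h
    have h1 : (b : ℚ) ^ ip = (b : ℚ) ^ i * (b : ℚ) ^ im := by
      rw [← zpow_natCast, ← zpow_natCast, ← zpow_add₀ hb0]
      congr 1
      omega
    rw [h1, hr, mul_pow, div_pow, ← zpow_natCast ((b : ℚ) ^ (κ - κ₀)), ← zpow_mul]
    have h2 : (b : ℚ) ^ i = (b : ℚ) ^ ((κ - κ₀) * (D : ℤ)) * (b : ℚ) ^ ((D₁ : ℤ) * κ₂ - D * κ) := by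
      rw [← zpow_add₀ hb0]
      congr 1
      rw [hi]
      ring
    rw [h2]
    have h3 : (u : ℚ) ^ D / (v : ℚ) ^ D * (a : ℚ) ^ D₁ = (b : ℚ) ^ ((D₁ : ℤ) * κ₂ - D * κ) * (a' : ℚ) ^ D₁ := by
      rw [div_mul_eq_mul_div, div_eq_iff (by positivity)]
      linear_combination -h
    linear_combination ((b : ℚ) ^ ((κ - κ₀) * (D : ℤ)) * (b : ℚ) ^ im) * h3
  obtain ⟨hn, hd⟩ := num_den_le hr0 (by positivity) (by positivity) hrD
  have hnum0 : 0 < r.num := Rat.num_pos.2 hr0
  have hnum1 : 1 ≤ r.num.natAbs := by omega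
  have hden1 : 1 ≤ r.den := r.den_pos
  have hrR : (r : ℝ) = (r.num.natAbs : ℝ) / r.den := by
    have h1 : (r.num : ℝ) = (r.num.natAbs : ℝ) := by
      have h2 : ((r.num.natAbs : ℤ) : ℝ) = (r.num : ℝ) := by rw [Int.natAbs_of_nonneg hnum0.le]
      rw [← h2, Int.cast_natCast]
    rw [← h1]
    exact Rat.cast_def r
  have hnR : (0 : ℝ) < r.num.natAbs := by exact_mod_cast hnum1
  have hdR : (0 : ℝ) < r.den := by exact_mod_cast hden1
  have huR : (0 : ℝ) < u := by exact_mod_cast hu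
  have hvR : (0 : ℝ) < v := by exact_mod_cast hv
  have hlog : κ * Real.log b + Real.log u - Real.log v =
      κ₀ * Real.log b + Real.log (r.num.natAbs : ℕ) - Real.log (r.den : ℕ) := by
    have h1 : Real.log (r : ℝ) = Real.log (r.num.natAbs : ℕ) - Real.log (r.den : ℕ) := by
      rw [hrR, Real.log_div hnR.ne' hdR.ne']
    have h2 : Real.log (r : ℝ) = (κ - κ₀) * Real.log b + (Real.log u - Real.log v) := by
      rw [hr]
      push_cast
      rw [Real.log_mul (by positivity) (by positivity), Real.log_zpow, Real.log_div huR.ne' hvR.ne']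
      push_cast
      ring
    linarith
  have huv := hmin κ₀ r.num.natAbs r.den hnum1 hden1 hlog
  have hprod : (r.num.natAbs * r.den) ^ D ≤ b ^ (ip + im) * (A ^ D₁ * A ^ D₁) := by
    calc (r.num.natAbs * r.den) ^ D = r.num.natAbs ^ D * r.den ^ D := mul_pow _ _ _
      _ ≤ (b ^ ip * a' ^ D₁) * (b ^ im * a ^ D₁) := Nat.mul_le_mul hn hd
      _ = b ^ (ip + im) * (a' ^ D₁ * a ^ D₁) := by ring
      _ ≤ _ := by gcongr
  have hprod' : (u * v) ^ D ≤ b ^ (ip + im) * (A ^ D₁ * A ^ D₁) := (Nat.pow_le_pow_left huv D).trans hprod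
  have hA1 : 1 ≤ A := ha.trans haA
  have hAR : (0 : ℝ) < A := by exact_mod_cast hA1
  have hfin : D * Real.log (u * v) ≤ (ip + im : ℕ) * Real.log b + 2 * D₁ * Real.log A := by
    have h1 : (((u * v) ^ D : ℕ) : ℝ) ≤ ((b ^ (ip + im) * (A ^ D₁ * A ^ D₁) : ℕ) : ℝ) := by exact_mod_cast hprod'
    have h2 := Real.log_le_log (by positivity) h1
    push_cast at h2
    have e1 : Real.log ((b : ℝ) ^ (ip + im) * ((A : ℝ) ^ D₁ * (A : ℝ) ^ D₁)) =
        ((ip : ℝ) + im) * Real.log b + 2 * D₁ * Real.log A := by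
      rw [Real.log_mul (by positivity) (by positivity), Real.log_mul (by positivity) (by positivity),
        Real.log_pow, Real.log_pow]
      push_cast
      ring
    rw [Real.log_pow, e1] at h2
    push_cast
    exact h2
  have hlb : 0 ≤ Real.log b := Real.log_nonneg hb1R
  rw [habs] at hfin
  have : |(i : ℝ)| * Real.log b ≤ D / 2 * Real.log b := by gcongr
  linarith

/-- the dependent case: logarithms are proportional -/
theorem dep_log (hb : b ≠ 0) {u v : ℕ} (hu : 1 ≤ u) (hv : 1 ≤ v) (q : ℕ)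
    (hdep : ∀ p : ℕ, p.Prime → (padicValNat q b : ℤ) * (padicValNat p u - padicValNat p v) =
      (padicValNat p b : ℤ) * (padicValNat q u - padicValNat q v)) :
    (padicValNat q b : ℝ) * (Real.log u - Real.log v) =
      (((padicValNat q u : ℤ) - padicValNat q v : ℤ) : ℝ) * Real.log b := by
  set m := padicValNat q b with hm
  set Δ : ℤ := (padicValNat q u : ℤ) - padicValNat q v with hΔ
  set dp : ℕ := Δ.toNat with hdp
  set dm : ℕ := (-Δ).toNat with hdm
  have hpm : Δ = (dp : ℤ) - dm := by omega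
  have heq : u ^ m * b ^ dm = v ^ m * b ^ dp := by
    apply Nat.eq_of_factorization_eq (by positivity) (by positivity)
    intro p
    by_cases hp : p.Prime
    · haveI := Fact.mk hp
      rw [Nat.factorization_def _ hp, Nat.factorization_def _ hp, padicValNat.mul (by positivity) (by positivity),
        padicValNat.mul (by positivity) (by positivity), padicValNat.pow, padicValNat.pow, padicValNat.pow, padicValNat.pow]
      have h1 := hdep p hp
      rw [hpm] at h1
      have h2 : ((m * padicValNat p u + dm * padicValNat p b : ℕ) : ℤ) = ((m * padicValNat p v + dp * padicValNat p b : ℕ) : ℤ) := by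
        rw [Nat.cast_add, Nat.cast_add, Nat.cast_mul, Nat.cast_mul, Nat.cast_mul, Nat.cast_mul]
        linear_combination h1
      exact_mod_cast h2
    · rw [Nat.factorization_eq_zero_of_not_prime _ hp, Nat.factorization_eq_zero_of_not_prime _ hp]
  have huR : (0 : ℝ) < u := by exact_mod_cast hu
  have hvR : (0 : ℝ) < v := by exact_mod_cast hv
  have hbR : (0 : ℝ) < b := by exact_mod_cast Nat.pos_of_ne_zero hb
  have h3 : ((u ^ m * b ^ dm : ℕ) : ℝ) = ((v ^ m * b ^ dp : ℕ) : ℝ) := by rw [heq]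
  have h4 := congrArg Real.log h3
  push_cast at h4
  rw [Real.log_mul (by positivity) (by positivity), Real.log_mul (by positivity) (by positivity), Real.log_pow,
    Real.log_pow, Real.log_pow, Real.log_pow] at h4
  rw [hpm]
  push_cast
  linear_combination h4

/-- the dependent case: divisibility of all differences -/
theorem dep_dvd (hb : 1 ≤ b) (hA : 1 ≤ A) (hε : ε ≤ Real.exp (-E)) {D D₁ m : ℕ} (hD₁ : 1 ≤ D₁) (hm : 1 ≤ m) {M κ₂ : ℤ} {a a' : ℕ}
    (ha : 1 ≤ a) (ha' : 1 ≤ a') (haA : a ≤ A) (haA' : a' ≤ A) (q : ℕ) [hq : Fact q.Prime] (hmq : padicValNat q b = m)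
    (h1 : |((D₁ * m : ℕ) : ℝ) * x - M * Real.log b| ≤ 2 * ε * m)
    (h2 : |(D : ℝ) * x - (κ₂ * Real.log b + Real.log a' - Real.log a)| ≤ 2 * ε)
    (hE : Real.log (4 * ((D : ℝ) * m + D₁ * m)) + ((D₁ * m : ℕ) : ℝ) * Real.log A < E) :
    (D₁ : ℤ) ∣ M * D := by
  have hA0 : (0 : ℝ) < A := by exact_mod_cast hA
  have ha0 : (0 : ℝ) < a := by exact_mod_cast ha
  have ha0' : (0 : ℝ) < a' := by exact_mod_cast ha'
  have hm0 : (0 : ℝ) < m := by exact_mod_cast hm
  have hD₁0 : (0 : ℝ) < D₁ := by exact_mod_cast hD₁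
  set G := D₁ * m with hG
  have hG1 : 1 ≤ G := Nat.mul_pos hD₁ hm
  have hex : (b : ℚ) ^ (D * M - G * κ₂) * ((a ^ G : ℕ) : ℚ) = ((a' ^ G : ℕ) : ℚ) := by
    apply exact_of_small hb (Z := (A : ℝ) ^ G)
    · positivity
    · positivity
    · push_cast
      exact pow_le_pow_left₀ ha0.le (by exact_mod_cast haA) _
    · push_cast
      exact pow_le_pow_left₀ ha0'.le (by exact_mod_cast haA') _
    · have h3 : ((D * M - G * κ₂ : ℤ) : ℝ) * Real.log b + Real.log ((a ^ G : ℕ) : ℝ) - Real.log ((a' ^ G : ℕ) : ℝ) =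
          (G : ℝ) * ((D : ℝ) * x - (κ₂ * Real.log b + Real.log a' - Real.log a)) -
          D * ((G : ℝ) * x - M * Real.log b) := by
        push_cast
        rw [Real.log_pow, Real.log_pow]
        ring
      rw [h3]
      have h5 : 2 * ε * ((D : ℝ) * m + D₁ * m) < 1 / (2 * (A : ℝ) ^ G) := by
        apply small_of_log hε (by positivity) (by positivity)
        rw [Real.log_pow]
        exact hE
      refine lt_of_le_of_lt ?_ h5
      have h6 := norm_sub_le ((G : ℝ) * ((D : ℝ) * x - (κ₂ * Real.log b + Real.log a' - Real.log a)))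
        (D * ((G : ℝ) * x - M * Real.log b))
      rw [Real.norm_eq_abs, Real.norm_eq_abs, Real.norm_eq_abs, abs_mul, abs_mul, Nat.abs_cast, Nat.abs_cast] at h6
      refine h6.trans ?_
      have h7 : (G : ℝ) * |(D : ℝ) * x - (κ₂ * Real.log b + Real.log a' - Real.log a)| ≤ G * (2 * ε) := by gcongr
      have h8 : (D : ℝ) * |(G : ℝ) * x - M * Real.log b| ≤ D * (2 * ε * m) := by gcongr
      have h9 : (G : ℝ) = D₁ * m := by rw [hG]; push_cast; ring
      rw [h9] at h7 h8 ⊢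
      linarith
  have hv := val_of_exact (by omega) (by positivity) (by positivity) hex q
  rw [padicValNat.pow, padicValNat.pow, hmq] at hv
  have h10 : ((D₁ * m : ℕ) : ℤ) ∣ (M * D) * m := by
    refine ⟨κ₂ * m + padicValNat q a' - padicValNat q a, ?_⟩
    rw [← hG]
    push_cast at hv ⊢
    linear_combination hv
  have h11 : (D₁ : ℤ) * m ∣ (M * D) * m := by
    have : ((D₁ * m : ℕ) : ℤ) = (D₁ : ℤ) * m := by push_cast; ring
    rwa [this] at h10
  exact (mul_dvd_mul_iff_right (by positivity : (m : ℤ) ≠ 0)).1 h11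

end Pool.Agent.Helper46.RB
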