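import Pool.Agent.Helper46.RB.Red2

/-!
# The structure of the set of exceptional times at one scale
-/

set_option autoImplicit false

namespace Pool.Agent.Helper46.RB

open Real

theorem natlog_le {n : ℕ} (hn : 1 ≤ n) : ((Nat.log 2 n : ℕ) : ℝ) ≤ 2 * Real.log n := by
  have h1 : 2 ^ Nat.log 2 n ≤ n := Nat.pow_log_le_self 2 (by omega)
  have h2 : ((2 : ℝ)) ^ Nat.log 2 n ≤ n := by exact_mod_cast h1
  have h3 := Real.log_le_log (by positivity) h2
  rw [Real.log_pow] at h3
  have h4 := Real.log_two_gt_d9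
  have h5 : (0 : ℝ) ≤ (Nat.log 2 n : ℕ) := by positivity
  nlinarith

theorem scale {b : ℕ} (hb : 2 ≤ b) {β c : ℝ} {A N D₀ : ℕ} (hA : 1 ≤ A) {E ε : ℝ} (hε : ε ≤ Real.exp (-E))
    (q : ℕ) [hq : Fact q.Prime] {m : ℕ} (hmq : padicValNat q b = m) (hm : 1 ≤ m) (S : Finset ℕ)
    (hS : ∀ n ∈ S, n ≤ N ∧ n ∈ Zs b β c A ε) (hD₀ : 1 ≤ D₀) (hD₀N : D₀ ≤ N)
    (hE1 : Real.log (8 * N * m) ≤ E / 4) (hE2 : m * D₀ * Real.log A ≤ E / 4) (hE3 : 8 * Real.log A ≤ E)
    (hE4 : 16 * Real.log b ≤ E) :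
    S.card ≤ N / (D₀ + 1) + 1 ∨
    (S.card : ℝ) ≤ 128 * (1 + Real.log b) ^ 2 * (D₀ * (Real.log A + 1) * (N / E + 1)) ∨
    ∃ (D₁ : ℕ) (M : ℤ), 1 ≤ D₁ ∧ D₁ ≤ D₀ ∧ |((D₁ * m : ℕ) : ℝ) * Real.log β - M * Real.log b| ≤ 2 * ε * m ∧
      ∀ n ∈ S, ∀ n' ∈ S, n < n' → (D₁ : ℤ) ∣ M * ((n' - n : ℕ) : ℤ) := by
  classical
  by_cases hgap : ∀ n ∈ S, ∀ n' ∈ S, n < n' → D₀ < n' - n
  · left
    have := count_le S N (D₀ + 1) 0 (by omega) (fun n hn => (hS n hn).1)
      (fun n hn n' hn' hlt h => by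
        have := hgap n hn n' hn' hlt
        omega)
    simpa using this
  right
  push_neg at hgap
  obtain ⟨n₀, hn₀, n₁, hn₁, hlt, hle⟩ := hgap
  obtain ⟨κ₁, a₁, a₁', ha₁, haA₁, ha₁', haA₁', hp₁⟩ := pair (hS n₀ hn₀).2 (hS n₁ hn₁).2
  set D₁ := n₁ - n₀ with hD₁def
  have hD₁ : 1 ≤ D₁ := by omega
  have hcast : ((n₁ : ℝ) - n₀) = (D₁ : ℕ) := by
    rw [hD₁def, Nat.cast_sub hlt.le]
  rw [hcast] at hp₁
  have hN1 : 1 ≤ N := hD₀.trans hD₀N
  have hNR : (1 : ℝ) ≤ N := by exact_mod_cast hN1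
  have hmR : (1 : ℝ) ≤ m := by exact_mod_cast hm
  have hb1 : (2 : ℝ) ≤ b := by exact_mod_cast hb
  have hlb : 0 < Real.log b := Real.log_pos (by linarith)
  have hlb2 : Real.log 2 ≤ Real.log b := Real.log_le_log (by norm_num) hb1
  have hl2 := Real.log_two_gt_d9
  have hAR : (1 : ℝ) ≤ A := by exact_mod_cast hA
  have hlA : 0 ≤ Real.log A := Real.log_nonneg hAR
  have hE0 : 0 < E := by linarith
  have hD₁R : (1 : ℝ) ≤ D₁ := by exact_mod_cast hD₁
  have hD₁D₀ : (D₁ : ℝ) ≤ D₀ := by exact_mod_cast hle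
  have hD₀NR : (D₀ : ℝ) ≤ N := by exact_mod_cast hD₀N
  have hD₀R : (1 : ℝ) ≤ D₀ := by exact_mod_cast hD₀
  obtain ⟨κ, u, v, hu, hv, hℓ, hmin⟩ := rep_min b (κ₁ * Real.log b + Real.log a₁' - Real.log a₁)
    ⟨κ₁, a₁', a₁, ha₁', ha₁, rfl⟩
  have huR : (1 : ℝ) ≤ u := by exact_mod_cast hu
  have hvR : (1 : ℝ) ≤ v := by exact_mod_cast hv
  rw [hℓ] at hp₁ hmin
  have hdist : ∀ n ∈ S, ∀ n' ∈ S, n < n' → ∃ (κ₂ : ℤ) (a a' : ℕ), 1 ≤ a ∧ a ≤ A ∧ 1 ≤ a' ∧ a' ≤ A ∧
      |((n' - n : ℕ) : ℝ) * Real.log β - (κ₂ * Real.log b + Real.log a' - Real.log a)| ≤ 2 * ε := by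
    intro n hn n' hn' hlt
    have h1 := pair (hS n hn).2 (hS n' hn').2
    have h2 : ((n' : ℝ) - n) = ((n' - n : ℕ) : ℝ) := by rw [Nat.cast_sub hlt.le]
    rw [h2] at h1
    exact h1
  by_cases hdep : ∀ p : ℕ, p.Prime → (padicValNat q b : ℤ) * (padicValNat p u - padicValNat p v) =
      (padicValNat p b : ℤ) * (padicValNat q u - padicValNat q v)
  · right
    have hlog := dep_log (by omega) hu hv q hdep
    rw [hmq] at hlog
    set Δ : ℤ := (padicValNat q u : ℤ) - padicValNat q v with hΔ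
    have h1 : |((D₁ * m : ℕ) : ℝ) * Real.log β - ((m * κ + Δ : ℤ) : ℝ) * Real.log b| ≤ 2 * ε * m := by
      have h2 : ((D₁ * m : ℕ) : ℝ) * Real.log β - ((m * κ + Δ : ℤ) : ℝ) * Real.log b =
          m * ((D₁ : ℝ) * Real.log β - (κ * Real.log b + Real.log u - Real.log v)) := by
        push_cast at hlog ⊢
        linear_combination hlog
      rw [h2, abs_mul, Nat.abs_cast]
      calc (m : ℝ) * |(D₁ : ℝ) * Real.log β - (κ * Real.log b + Real.log u - Real.log v)| ≤ m * (2 * ε) := by gcongr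
        _ = 2 * ε * m := by ring
    refine ⟨D₁, m * κ + Δ, hD₁, hle, h1, ?_⟩
    intro n hn n' hn' hlt'
    obtain ⟨κ₂, a, a', ha, haA, ha', haA', hp₂⟩ := hdist n hn n' hn' hlt'
    apply dep_dvd (by omega) hA hε hD₁ hm ha ha' haA haA' q hmq h1 hp₂
    have hDN : ((n' - n : ℕ) : ℝ) ≤ N := by
      have : n' - n ≤ N := by
        have := (hS n' hn').1
        omega
      exact_mod_cast this
    have h3 : Real.log (4 * (((n' - n : ℕ) : ℝ) * m + D₁ * m)) ≤ Real.log (8 * N * m) := by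
      apply Real.log_le_log
      · positivity
      · nlinarith
    have h4 : ((D₁ * m : ℕ) : ℝ) * Real.log A ≤ m * D₀ * Real.log A := by
      push_cast
      have : (D₁ : ℝ) * m ≤ m * D₀ := by nlinarith
      gcongr
    linarith
  · left
    push_neg at hdep
    obtain ⟨p, hp, hind⟩ := hdep
    have := Fact.mk hp
    set h : ℝ := Real.log (u * v) with hh
    have hh0 : 0 ≤ h := Real.log_nonneg (by nlinarith)
    have hhA : h ≤ 2 * Real.log A := by
      have h1 : u * v ≤ a₁' * a₁ := hmin κ₁ a₁' a₁ ha₁' ha₁ hℓ.symm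
      have h2 : u * v ≤ A * A := h1.trans (Nat.mul_le_mul haA₁' haA₁)
      have h3 : ((u : ℝ) * v) ≤ A * A := by exact_mod_cast h2
      have h4 := Real.log_le_log (by positivity) h3
      have h5 : Real.log ((A : ℝ) * A) = Real.log A + Real.log A := Real.log_mul (by positivity) (by positivity)
      linarith
    set H : ℝ := max h (2 * Real.log b) with hH
    have hH0 : 0 < H := lt_of_lt_of_le (by linarith) (le_max_right _ _)
    have hHE : 4 * H ≤ E := by
      rw [hH, mul_max_of_nonneg _ _ (by norm_num)]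
      apply max_le <;> linarith
    set w : ℕ := ⌊E / (4 * H)⌋₊ with hw
    have hz1 : 1 ≤ E / (4 * H) := by
      rw [le_div_iff₀ (by positivity)]
      linarith
    have hw1 : 1 ≤ w := by
      rw [hw]
      exact (Nat.one_le_floor_iff _).2 hz1
    have hwlow : E / (8 * H) ≤ w := by
      have h1 := Nat.lt_floor_add_one (E / (4 * H))
      rw [← hw] at h1
      have hw1' : (1 : ℝ) ≤ w := by exact_mod_cast hw1
      have h2 : E / (8 * H) = E / (4 * H) / 2 := by
        field_simp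
        ring
      linarith
    have hwup : (w : ℝ) ≤ E / (4 * H) := Nat.floor_le (by positivity)
    have hNw : ((N / w : ℕ) : ℝ) ≤ 8 * H * N / E := by
      refine (Nat.cast_div_le).trans ?_
      have hw0 : (0 : ℝ) < w := by exact_mod_cast hw1
      rw [div_le_div_iff₀ hw0 hE0]
      have h2 : E ≤ 8 * H * w := by
        rw [div_le_iff₀ (by positivity)] at hwlow
        linarith
      nlinarith
    have hexact : ∀ n ∈ S, ∀ n' ∈ S, n < n' → n' - n < w → ∃ (κ₂ : ℤ) (a a' : ℕ), 1 ≤ a ∧ a ≤ A ∧ 1 ≤ a' ∧ a' ≤ A ∧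
        (b : ℚ) ^ ((D₁ : ℤ) * κ₂ - ((n' - n : ℕ) : ℤ) * κ) * ((a' ^ D₁ * v ^ (n' - n) : ℕ) : ℚ) =
          ((a ^ D₁ * u ^ (n' - n) : ℕ) : ℚ) := by
      intro n hn n' hn' hlt' hDw
      obtain ⟨κ₂, a, a', ha, haA, ha', haA', hp₂⟩ := hdist n hn n' hn' hlt'
      refine ⟨κ₂, a, a', ha, haA, ha', haA', ?_⟩
      apply pair_exact (by omega) hA hε hD₁ hu hv ha ha' haA haA' hp₁ hp₂
      have hDN : ((n' - n : ℕ) : ℝ) ≤ N := by
        have : n' - n ≤ N := by
          have := (hS n' hn').1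
          omega
        exact_mod_cast this
      have h3 : Real.log (4 * (((n' - n : ℕ) : ℝ) + D₁)) ≤ Real.log (8 * N * m) := by
        apply Real.log_le_log
        · positivity
        · nlinarith
      have h4 : (D₁ : ℝ) * Real.log A ≤ m * D₀ * Real.log A := by
        have : (D₁ : ℝ) ≤ m * D₀ := by nlinarith
        gcongr
      have h5 : ((n' - n : ℕ) : ℝ) * h ≤ E / 4 := by
        have h6 : ((n' - n : ℕ) : ℝ) ≤ w := by exact_mod_cast hDw.le
        calc ((n' - n : ℕ) : ℝ) * h ≤ w * H := by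
              apply mul_le_mul h6 (le_max_left _ _) hh0 (by positivity)
          _ ≤ E / (4 * H) * H := by gcongr
          _ = E / 4 := by field_simp
      linarith
    have hDlow : (0 : ℝ) ≤ D₀ * (Real.log A + 1) * (N / E + 1) := by positivity
    rcases le_or_gt h (2 * Real.log b) with hcase | hcase
    · have hHval : H = 2 * Real.log b := max_eq_right hcase
      have hcnt := count_le S N w (2 * D₁ * (Nat.log 2 b * Nat.log 2 A)) hw1 (fun n hn => (hS n hn).1)
        (fun n hn n' hn' hlt' hDw => by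
          obtain ⟨κ₂, a, a', ha, haA, ha', haA', hex⟩ := hexact n hn n' hn' hlt' hDw
          have hind' : (padicValNat q b : ℤ) * (padicValNat p u - padicValNat p v) ≠
            (padicValNat p b : ℤ) * (padicValNat q u - padicValNat q v) := hind
          exact val_bound hb hu hv ha ha' haA haA' hex p q hind')
      have hcnt' : (S.card : ℝ) ≤ ((N / w : ℕ) + 1) * (2 * D₁ * ((Nat.log 2 b : ℕ) * (Nat.log 2 A : ℕ)) + 1) := by
        exact_mod_cast hcnt
      refine hcnt'.trans ?_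
      have l1 := natlog_le (n := b) (by omega)
      have l2 := natlog_le (n := A) hA
      have h7 : ((N / w : ℕ) : ℝ) + 1 ≤ 16 * (1 + Real.log b) * (N / E + 1) := by
        rw [hHval] at hNw
        have e1 : 8 * (2 * Real.log b) * N / E = 16 * Real.log b * (N / E) := by ring
        rw [e1] at hNw
        have e2 : (0 : ℝ) ≤ N / E := by positivity
        nlinarith
      have h8 : (2 * D₁ * (((Nat.log 2 b : ℕ) : ℝ) * (Nat.log 2 A : ℕ)) + 1) ≤ 8 * (1 + Real.log b) * (D₀ * (Real.log A + 1)) := by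
        have e1 : ((Nat.log 2 b : ℕ) : ℝ) * (Nat.log 2 A : ℕ) ≤ (2 * Real.log b) * (2 * Real.log A) := by gcongr
        have e2 : 2 * (D₁ : ℝ) * (((Nat.log 2 b : ℕ) : ℝ) * (Nat.log 2 A : ℕ)) ≤ 2 * D₀ * ((2 * Real.log b) * (2 * Real.log A)) := by
          gcongr
        have e3 : 0 ≤ (D₀ : ℝ) * Real.log A := by positivity
        have e4 : 0 ≤ (D₀ : ℝ) * Real.log b := by positivity
        have e5 : 0 ≤ (D₀ : ℝ) * (Real.log A * Real.log b) := by positivity
        nlinarith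
      calc (((N / w : ℕ) : ℝ) + 1) * (2 * D₁ * (((Nat.log 2 b : ℕ) : ℝ) * (Nat.log 2 A : ℕ)) + 1)
          ≤ (16 * (1 + Real.log b) * (N / E + 1)) * (8 * (1 + Real.log b) * (D₀ * (Real.log A + 1))) := by
            apply mul_le_mul h7 h8 (by positivity) (by positivity)
        _ = _ := by ring
    · have hHval : H = h := max_eq_left hcase.le
      have hh1 : 0 < h := by linarith
      set B : ℕ := ⌊8 * D₁ * Real.log A / (3 * h)⌋₊ with hB
      have hcnt := count_le S N w B hw1 (fun n hn => (hS n hn).1)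
        (fun n hn n' hn' hlt' hDw => by
          obtain ⟨κ₂, a, a', ha, haA, ha', haA', hex⟩ := hexact n hn n' hn' hlt' hDw
          have hred := red_bound hb (by omega : 1 ≤ n' - n) hu hv ha ha' haA haA' hex hmin
          rw [hB]
          apply Nat.le_floor
          rw [le_div_iff₀ (by positivity)]
          have hD0 : (0 : ℝ) ≤ ((n' - n : ℕ) : ℝ) := by positivity
          rw [← hh] at hred
          nlinarith)
      have hcnt' : (S.card : ℝ) ≤ ((N / w : ℕ) + 1) * ((B : ℝ) + 1) := by exact_mod_cast hcnt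
      refine hcnt'.trans ?_
      have hBup : (B : ℝ) ≤ 8 * D₁ * Real.log A / (3 * h) := Nat.floor_le (by positivity)
      rw [hHval] at hNw
      have e0 : (0 : ℝ) ≤ N / E := by positivity
      have h9 : (((N / w : ℕ) : ℝ) + 1) * ((B : ℝ) + 1) ≤ (8 * h * N / E + 1) * (8 * D₁ * Real.log A / (3 * h) + 1) := by
        gcongr
      refine h9.trans ?_
      have h10 : (8 * h * N / E + 1) * (8 * D₁ * Real.log A / (3 * h) + 1) =
          64 / 3 * (D₁ * Real.log A) * (N / E) + 8 * h * (N / E) + 8 / (3 * h) * (D₁ * Real.log A) + 1 := by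
        field_simp
        ring
      rw [h10]
      have h11 : 8 / (3 * h) ≤ 2 := by
        rw [div_le_iff₀ (by positivity)]
        nlinarith
      have h12 : 8 / (3 * h) * (D₁ * Real.log A) ≤ 2 * (D₀ * Real.log A) := by gcongr
      have h13 : (D₁ : ℝ) * Real.log A ≤ D₀ * Real.log A := by gcongr
      have h14 : 8 * h * (N / E) ≤ 16 * Real.log A * (N / E) := by
        apply mul_le_mul_of_nonneg_right _ e0
        linarith
      have h15 : Real.log A * (N / E) ≤ D₀ * Real.log A * (N / E) := by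
        apply mul_le_mul_of_nonneg_right _ e0
        nlinarith
      have h16 : 64 / 3 * ((D₁ : ℝ) * Real.log A) * (N / E) ≤ 64 / 3 * (D₀ * Real.log A) * (N / E) := by gcongr
      have h17 : (0 : ℝ) ≤ D₀ * Real.log A := by positivity
      have h18 : (0 : ℝ) ≤ D₀ * Real.log A * (N / E) := by positivity
      have h19 : (0 : ℝ) ≤ D₀ * (N / E) := by positivity
      have h20 : (1 : ℝ) ≤ (1 + Real.log b) ^ 2 := by nlinarith
      calc 64 / 3 * ((D₁ : ℝ) * Real.log A) * (N / E) + 8 * h * (N / E) + 8 / (3 * h) * (D₁ * Real.log A) + 1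
          ≤ 128 * (D₀ * (Real.log A + 1) * (N / E + 1)) := by nlinarith
        _ = 128 * 1 * (D₀ * (Real.log A + 1) * (N / E + 1)) := by ring
        _ ≤ _ := by gcongr

end Pool.Agent.Helper46.RB
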